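import Pool.Agent.X84.Kill

set_option autoImplicit false
open Set Filter Topology MeasureTheory Finset
open Pool.Agent.X84.Kill

namespace Pool.Agent.Results.MP_0c3956_an.NoSyndetic

/-- `S` is syndetic: for some `L`, every interval of `L` consecutive positive integers meets `S`. -/
def IsSyndetic (S : Set ℕ) : Prop := ∃ L : ℕ, ∀ a : ℕ, 1 ≤ a → ∃ s ∈ S, a ≤ s ∧ s < a + L

/-- **Full answer to Q1: no.** No syndetic set of positive integers is a weak interpolation set of
order `2` for the class of uniquely ergodic systems. -/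
theorem result (S : Set ℕ) (hS : IsSyndetic S) : ¬ IsWeakInterpolationSet 2 S := by
  classical
  obtain ⟨L, hL⟩ := hS
  have hL0 : 0 < L := by
    obtain ⟨s, _, h1, h2⟩ := hL 1 le_rfl
    omega
  -- choose m
  obtain ⟨m, hm0, hm⟩ : ∃ m : ℕ, 0 < m ∧ 2 * (2 * m * L) < 2 ^ m := by
    have h1 : Tendsto (fun m : ℕ => ((m : ℝ) ^ 1) * (1 / 2 : ℝ) ^ m) atTop (𝓝 0) :=
      (summable_pow_mul_geometric_of_norm_lt_one (R := ℝ) 1 (r := (1 / 2 : ℝ))
        (by rw [Real.norm_eq_abs]; norm_num)).tendsto_atTop_zero
    have h2 : (0 : ℝ) < 1 / (4 * L) := by positivity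
    obtain ⟨m, hm1, hm2⟩ := ((h1.eventually (gt_mem_nhds h2)).and (eventually_gt_atTop 0)).exists
    refine ⟨m, hm2, ?_⟩
    rw [pow_one, one_div_pow, lt_div_iff₀ (by positivity)] at hm1
    have h3 : (m : ℝ) * (1 / 2 ^ m) * (4 * L) * 2 ^ m < 1 * 2 ^ m :=
      mul_lt_mul_of_pos_right hm1 (by positivity)
    have h4 : (m : ℝ) * (1 / 2 ^ m) * (4 * L) * 2 ^ m = 2 * (2 * m * L) := by
      field_simp; ring
    rw [h4, one_mul] at h3
    exact_mod_cast h3
  set n := 2 * m * L with hn
  have hn0 : 0 < n := by positivity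
  have hcnt : ∀ t : ℕ, 1 ≤ t → 2 * m ≤ cnt S t n := by
    intro t ht
    have hch : ∀ b : ℕ, ∃ s ∈ S, t + b * L ≤ s ∧ s < t + b * L + L := fun b =>
      hL (t + b * L) (by omega)
    choose s hsS hs1 hs2 using hch
    unfold cnt
    have hinj : Set.InjOn (fun b => s b - t) (range (2 * m) : Finset ℕ) := by
      intro b _ b' _ h
      have h3 : s b - t = s b' - t := h
      have h4 : s b = s b' := by
        have := hs1 b
        have := hs1 b'
        omega
      by_contra hne
      rcases lt_or_gt_of_ne hne with h5 | h5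
      · have h6 : (b + 1) * L ≤ b' * L := Nat.mul_le_mul_right L h5
        have := hs2 b
        have := hs1 b'
        rw [Nat.succ_mul] at h6
        omega
      · have h6 : (b' + 1) * L ≤ b * L := Nat.mul_le_mul_right L h5
        have := hs2 b'
        have := hs1 b
        rw [Nat.succ_mul] at h6
        omega
    have h1 := Finset.card_image_of_injOn hinj
    rw [card_range] at h1
    rw [← h1]
    apply Finset.card_le_card
    intro i hi
    rw [Finset.mem_image] at hi
    obtain ⟨b, hb, rfl⟩ := hi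
    rw [Finset.mem_range] at hb
    rw [Finset.mem_filter, Finset.mem_range]
    have h3 := hs1 b
    have h4 := hs2 b
    have h5 : (b + 1) * L ≤ 2 * m * L := Nat.mul_le_mul_right L hb
    rw [Nat.succ_mul] at h5
    refine ⟨?_, ?_⟩
    · show s b - t < n
      omega
    · have : t + (s b - t) = s b := by omega
      show t + (s b - t) ∈ S
      rw [this]; exact hsS b
  refine kill (k := 2) (n := n) (m := m) le_rfl hn0 hm (fun l => 2 ^ l) (fun l => 2 ^ (l + 1))
    (fun l => Nat.pow_lt_pow_right (by norm_num) (Nat.lt_succ_self l)) (fun l => le_rfl) ?_ ?_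
  · refine tendsto_atTop_mono (fun l => ?_) tendsto_id
    have h1 : (2 : ℕ) ^ (l + 1) - 2 ^ l = 2 ^ l := by rw [pow_succ]; omega
    rw [h1]
    exact (Nat.lt_two_pow_self).le
  · intro ε hε
    refine Eventually.of_forall fun l => ?_
    have h1 : ((range ((2 ^ (l + 1) - 2 ^ l) * n)).filter fun t => cnt S (2 ^ l * n + t) n < 2 * m) = ∅ := by
      apply Finset.filter_eq_empty_iff.2
      intro t _ h
      have h2 := hcnt (2 ^ l * n + t) (by
        have : 0 < 2 ^ l * n := by positivity
        omega)
      omega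
    rw [h1]
    simp only [Finset.card_empty, Nat.cast_zero]
    positivity

end Pool.Agent.Results.MP_0c3956_an.NoSyndetic
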